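import Mathlib

set_option autoImplicit false

namespace Pool.Agent.H.MP_95bae3_an

open Set Equiv
open scoped ENNReal

def G : Subgroup (Perm ℚ) where
  carrier := {σ | ∃ S : Finset ℚ, ∀ c ∉ S, σ c = c}
  mul_mem' := fun ⟨S, h⟩ ⟨T, k⟩ => ⟨S ∪ T, fun c hc => by
    rw [Finset.notMem_union] at hc
    rw [Perm.mul_apply, k c hc.2, h c hc.1]⟩
  one_mem' := ⟨∅, fun _ _ => rfl⟩
  inv_mem' := fun ⟨S, h⟩ => ⟨S, fun c hc => Perm.inv_eq_iff_eq.2 (h c hc).symm⟩

lemma fin (S : Finset ℚ) : {σ : G | ∀ c ∉ S, σ.1 c = c}.Finite := by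
  refine Finite.preimage Subtype.val_injective.injOn (s := {σ : Perm ℚ | ∀ c ∉ S, σ c = c})
    ((finite_range (Perm.ofSubtype (p := (· ∈ S)))).subset fun σ h => ?_)
  refine ⟨_, Perm.ofSubtype_subtypePerm (fun x => not_iff_not.1 ⟨fun k => ?_, fun k => ?_⟩)
    fun x => not_imp_comm.1 (h x)⟩
  · rwa [σ.injective (h _ k)] at k
  · rwa [h x k]

instance : Countable G := countable_univ_iff.1
  ((countable_iUnion fun S => (fin S).countable).mono fun σ _ => mem_iUnion.2 σ.2)

lemma folner (F : Finset G) (ε : ℝ) (hε : 0 < ε) : ∃ A : Set G, A.Finite ∧ A.Nonempty ∧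
    ∀ g ∈ F, ((symmDiff ((fun x => g * x) '' A) A).ncard : ℝ) < ε * (A.ncard : ℝ) := by
  choose S hS using fun g : G => g.2
  have n : {σ : G | ∀ c ∉ F.biUnion S, σ.1 c = c}.Nonempty := ⟨1, fun _ _ => rfl⟩
  refine ⟨_, fin _, n, fun g hg => ?_⟩
  have k : ∀ c ∉ F.biUnion S, g.1 c = c := fun c hc =>
    hS g c fun h => hc (Finset.mem_biUnion.2 ⟨g, hg, h⟩)
  have e : (fun x => g * x) '' {σ : G | ∀ c ∉ F.biUnion S, σ.1 c = c} ⊆
      {σ : G | ∀ c ∉ F.biUnion S, σ.1 c = c} := image_subset_iff.2 fun σ h c hc => by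
    change g.1 (σ.1 c) = c
    rw [h c hc, k c hc]
  rw [eq_of_subset_of_ncard_le e (ncard_image_of_injective _ (mul_right_injective g)).ge (fin _),
    symmDiff_self, bot_eq_empty, ncard_empty, Nat.cast_zero]
  exact mul_pos hε (Nat.cast_pos.2 ((ncard_pos (fin _)).2 n))

abbrev V := lp (fun _ : ℚ => ℝ) ∞

noncomputable def t (σ : Perm ℚ) : V →ₗᵢ[ℝ] V where
  toFun f := ⟨fun c => f (σ⁻¹ c), memℓp_infty ⟨‖f‖, forall_mem_range.2 fun _ =>
    lp.norm_apply_le_norm ENNReal.top_ne_zero f _⟩⟩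
  map_add' _ _ := rfl
  map_smul' _ _ := rfl
  norm_map' f := by
    rw [lp.norm_eq_ciSup, lp.norm_eq_ciSup]
    exact Equiv.iSup_comp (g := fun c => ‖f c‖) σ⁻¹

noncomputable def m (s : ℝ) : V := ⟨fun c => if c = 1 then s else max 0 (min c 1), memℓp_infty
  ⟨|s| + 1, forall_mem_range.2 fun c => by
    split_ifs
    · simp
    · rw [Real.norm_of_nonneg (le_max_left _ _)]
      exact le_add_of_nonneg_of_le (abs_nonneg _) (max_le zero_le_one (min_le_right _ _))⟩⟩

lemma near (s : ℚ) (h0 : 0 ≤ s) (h1 : s < 1) (n : ℕ) :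
    ∃ g : G, ‖t g (m 1) - m s‖ ≤ 1 / (n + 1) := by
  set p : ℕ → ℚ := fun i => s + (1 - s) * i / (n + 1)
  have p1 : StrictMono p := fun i j h => by
    have : (i : ℚ) < j := by exact_mod_cast h
    have : 0 < 1 - s := by linarith
    simp only [p]
    gcongr
  have p2 : p (n + 1) = 1 := by
    simp only [p]
    push_cast
    field_simp
    ring
  have p3 : ∀ i ≤ n + 1, m 1 (p i) = p i := fun i hi => by
    have a : (0 : ℝ) ≤ p i := by exact_mod_cast le_trans (by simpa [p] using h0) (p1.monotone i.zero_le)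
    have b : (p i : ℝ) ≤ 1 := by exact_mod_cast (p1.monotone hi).trans_eq p2
    simp only [m]
    split_ifs with h
    · simp [h]
    · rw [min_eq_left b, max_eq_right a]
  have p4 : ∀ c ≠ 1, m s c = m 1 c := fun c hc => by simp [m, hc]
  set l := (List.range (n + 2)).map p
  have l1 : l.Nodup := List.nodup_range.map p1.injective
  refine ⟨⟨l.formPerm⁻¹, G.inv_mem ⟨l.toFinset, fun c hc => l.formPerm_apply_of_notMem
    (by simpa using hc)⟩⟩, lp.norm_le_of_forall_le' _ fun c => ?_⟩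
  change |m 1 (l.formPerm⁻¹⁻¹ c) - m s c| ≤ _
  rw [inv_inv]
  by_cases hc : c ∈ l
  · obtain ⟨i, hi, rfl⟩ := List.getElem_of_mem hc
    rw [List.formPerm_apply_getElem _ l1]
    simp only [l, List.length_map, List.length_range, List.getElem_map, List.getElem_range] at hi ⊢
    rcases (Nat.le_of_lt_succ hi).eq_or_lt with rfl | h
    · rw [Nat.mod_self, p3 _ (Nat.zero_le _), p2]
      simp [m, p]
      positivity
    · rw [Nat.mod_eq_of_lt (show i + 1 < n + 2 by omega), p4 _ (p2 ▸ (p1 h).ne), p3 _ h, p3 _ h.le]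
      have a : (0 : ℝ) ≤ s := by exact_mod_cast h0
      have b : (s : ℝ) < 1 := by exact_mod_cast h1
      have : (p (i + 1) : ℝ) - p i = (1 - s) / (n + 1) := by
        simp only [p]
        push_cast
        ring
      rw [this, abs_of_nonneg (div_nonneg (by linarith) (by positivity))]
      gcongr
      linarith
  · rw [l.formPerm_apply_of_notMem hc, p4 c fun h => hc (List.mem_map.2 ⟨n + 1, by simp, p2.trans h.symm⟩),
      sub_self, abs_zero]
    positivity

noncomputable def X : Submodule ℝ V :=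
  (Submodule.span ℝ (range fun g : G => t g (m 1))).topologicalClosure

instance : CompleteSpace X := (Submodule.isClosed_topologicalClosure _).completeSpace_coe
instance : TopologicalSpace.SeparableSpace X :=
  (countable_range _).isSeparable.span.closure.separableSpace

lemma inv (g : G) (f : V) (hf : f ∈ X) : (t g).toLinearMap f ∈ X :=
  map_mem_closure (t g).continuous hf fun f hf => (Submodule.span_le (p := .comap (t g).toLinearMap
    (Submodule.span ℝ _))).2 (forall_mem_range.2 fun h => Submodule.subset_span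
      (mem_range.2 ⟨g * h, rfl⟩)) hf

noncomputable def ρ : G →* (X ≃ₗᵢ[ℝ] X) where
  toFun g :=
    { toLinearEquiv := .ofLinearMap ((t g).toLinearMap.restrict (inv g))
        ((t (g⁻¹ : G)).toLinearMap.restrict (inv g⁻¹))
        (LinearMap.ext fun f => Subtype.ext (lp.ext (funext fun c => congrArg f.1 (by simp))))
        (LinearMap.ext fun f => Subtype.ext (lp.ext (funext fun c => congrArg f.1 (by simp))))
      norm_map' := fun f => (t g).norm_map f.1 }
  map_one' := LinearIsometryEquiv.ext fun _ => rfl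
  map_mul' _ _ := LinearIsometryEquiv.ext fun _ => rfl

lemma one_mem : m 1 ∈ X := Submodule.le_topologicalClosure _ (Submodule.subset_span ⟨1, rfl⟩)

lemma mem (s : ℚ) (h0 : 0 ≤ s) (h1 : s < 1) : m s ∈ X :=
  Metric.mem_closure_iff.2 fun ε hε => by
    obtain ⟨n, hn⟩ := exists_nat_one_div_lt hε
    obtain ⟨g, hg⟩ := near s h0 h1 n
    exact ⟨_, Submodule.subset_span ⟨g, rfl⟩, (dist_eq_norm' _ _).trans_lt (hg.trans_lt hn)⟩

end Pool.Agent.H.MP_95bae3_an
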